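import Pool.Agent.Lib.MP_f50f2a_an.FinalE

/-!
# Adjoining countably many approximate quotients to a commutative radical Banach algebra
-/

set_option autoImplicit false

namespace Pool.Agent.Results.MP_f50f2a_an.ApproximateQuotients

open Pool.Agent.MPf50f2a

universe u

/-- A commutative algebra is radical if every element has a quasi-inverse; for a Banach algebra this
means that all elements are quasi-nilpotent. -/
def IsRadical (A : Type u) [NonUnitalNormedCommRing A] : Prop :=
  ∀ a : A, ∃ b : A, a + b + a * b = 0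

/-- Let `A` be a commutative radical Banach algebra and `(b n, c n)` a sequence of pairs of elements of
`A`.  There is a commutative RADICAL Banach algebra `B` containing `A` isometrically such that
`c n ∈ closure (b n B)` for all `n`, if and only if for all `n` and all `δ > 0` there is `K` with
`‖c n z‖ ≤ K ‖b n z‖ + δ ‖z‖` for all `z = l + y` in the unitization of `A` (norm `‖l‖ + ‖y‖`). -/
theorem result (A : Type u) [NonUnitalNormedCommRing A] [NormedSpace ℂ A] [IsScalarTower ℂ A A]
    [SMulCommClass ℂ A A] [CompleteSpace A] (hA : IsRadical A) (b c : ℕ → A) :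
    (∃ (B : Type u) (_ : NonUnitalNormedCommRing B) (_ : NormedSpace ℂ B)
      (_ : IsScalarTower ℂ B B) (_ : SMulCommClass ℂ B B) (_ : CompleteSpace B)
      (φ : A →ₙₐ[ℂ] B), (∀ a, ‖φ a‖ = ‖a‖) ∧ IsRadical B ∧
      ∀ n, φ (c n) ∈ closure (Set.range fun x : B => φ (b n) * x)) ↔
    ∀ n, ∀ δ : ℝ, 0 < δ → ∃ K : ℝ, ∀ (l : ℂ) (y : A),
      ‖l • c n + c n * y‖ ≤ K * ‖l • b n + b n * y‖ + δ * (‖l‖ + ‖y‖) := by
  constructor
  · rintro ⟨B, i1, i2, i3, i4, i5, φ, hφ, -, h⟩ n
    exact f_ThmE2 A B φ (b n) (c n) hφ (h n)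
  · intro h
    exact f_ThmE1 A hA b c h

end Pool.Agent.Results.MP_f50f2a_an.ApproximateQuotients
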