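import Pool.Agent.Lib.MP_f50f2a_an.FinalT

/-!
# A criterion for topologically simple commutative Banach algebras with bounded approximate identity
-/

set_option autoImplicit false

namespace Pool.Agent.Results.MP_f50f2a_an.CriterionQ2

open Pool.Agent.MPf50f2a

universe u

/-- A commutative algebra is radical if every element has a quasi-inverse; for a Banach algebra this
means that all elements are quasi-nilpotent. -/
def IsRadical (A : Type u) [NonUnitalNormedCommRing A] : Prop :=
  ∀ a : A, ∃ b : A, a + b + a * b = 0

/-- Topologically simple: the multiplication is not zero and the only closed ideals are `0`, `A`. -/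
def IsTopologicallySimple (A : Type u) [NonUnitalNormedCommRing A] [NormedSpace ℂ A] : Prop :=
  (∃ a b : A, a * b ≠ 0) ∧ ∀ I : Submodule ℂ A, IsClosed (I : Set A) →
    (∀ a y : A, y ∈ I → a * y ∈ I) → I = ⊥ ∨ I = ⊤

/-- `A` is isomorphic to the algebra `ℂ`. -/
def IsIsomorphicToComplex (A : Type u) [NonUnitalNormedCommRing A] [NormedSpace ℂ A] : Prop :=
  ∃ χ : A →ₙₐ[ℂ] ℂ, Function.Bijective χ

/-- Bounded approximate identity (form with finite sets, equivalent to the form with nets). -/
def HasBoundedApproximateIdentity (A : Type u) [NonUnitalNormedCommRing A] : Prop :=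
  ∃ C : ℝ, ∀ (F : Finset A) (ε : ℝ), 0 < ε → ∃ e : A, ‖e‖ ≤ C ∧ ∀ a ∈ F, ‖e * a - a‖ < ε

/-- The improvement property of `X`: there are `δ > 0` and `θ < 1` such that for every `u` with
`‖u‖ < δ` there is `v` in the unitization (`v = l + v'`) with `‖X - (X - u) v‖ ≤ θ ‖u‖` (the trivial
choice `v = 1` gives `‖u‖`). -/
def Improvement (B : Type u) [NonUnitalNormedCommRing B] [NormedSpace ℂ B] (X : B) : Prop :=
  ∃ δ θ : ℝ, 0 < δ ∧ θ < 1 ∧ ∀ u : B, ‖u‖ < δ →
    ∃ (l : ℂ) (v : B), ‖X - (l • (X - u) + (X - u) * v)‖ ≤ θ * ‖u‖

/-- There is a commutative topologically simple Banach algebra with bounded approximate identity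
which is not isomorphic to `ℂ` if and only if there is a commutative radical Banach algebra `B` with
bounded approximate identity and an element `X ≠ 0` with `X B` dense in `B` which has the improvement
property. -/
theorem result :
    (∃ (A : Type u) (_ : NonUnitalNormedCommRing A) (_ : NormedSpace ℂ A)
      (_ : IsScalarTower ℂ A A) (_ : SMulCommClass ℂ A A) (_ : CompleteSpace A),
      IsTopologicallySimple A ∧ ¬ IsIsomorphicToComplex A ∧ HasBoundedApproximateIdentity A) ↔
    ∃ (B : Type u) (_ : NonUnitalNormedCommRing B) (_ : NormedSpace ℂ B)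
      (_ : IsScalarTower ℂ B B) (_ : SMulCommClass ℂ B B) (_ : CompleteSpace B) (X : B),
      IsRadical B ∧ HasBoundedApproximateIdentity B ∧ X ≠ 0 ∧
      closure (Set.range fun y : B => X * y) = Set.univ ∧ Improvement B X :=
  f_ThmT.{u}.2

end Pool.Agent.Results.MP_f50f2a_an.CriterionQ2
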