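import Pool.Agent.Lib.MP_f50f2a_an.FinalF

/-!
# Power series algebras inside radical algebras with few closed ideals
-/

set_option autoImplicit false

namespace Pool.Agent.Results.MP_f50f2a_an.PowerSeries

open Finset Filter Topology
open Pool.Agent.MPf50f2a

universe u

/-- A commutative algebra is radical if every element has a quasi-inverse; for a Banach algebra this
means that all elements are quasi-nilpotent. -/
def IsRadical (A : Type u) [NonUnitalNormedCommRing A] : Prop :=
  ∀ a : A, ∃ b : A, a + b + a * b = 0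

/-- Log-concave radical weights. -/
structure IsWeight (w : ℕ → ℝ) : Prop where
  zero : w 0 = 1
  pos : ∀ n, 0 < w n
  logConcave : ∀ n, w n * w (n + 2) ≤ w (n + 1) ^ 2
  lim : Tendsto (fun n => w (n + 1) / w n) atTop (𝓝 0)

/-- `A` is the algebra of all power series `∑ f n X ^ (n + 1)` without constant term with
`‖f‖ = ∑ |f n| w (n + 1) < ∞`, where `coef a n` is the coefficient of `X ^ (n + 1)`. -/
structure IsPowerSeriesAlgebra (w : ℕ → ℝ) (A : Type u) [NonUnitalNormedCommRing A]
    [NormedSpace ℂ A] (coef : A →ₗ[ℂ] (ℕ → ℂ)) : Prop where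
  norm : ∀ a, HasSum (fun n => ‖coef a n‖ * w (n + 1)) ‖a‖
  surj : ∀ f : ℕ → ℂ, Summable (fun n => ‖f n‖ * w (n + 1)) → ∃ a, coef a = f
  mul_zero : ∀ a b, coef (a * b) 0 = 0
  mul_succ : ∀ a b m, coef (a * b) (m + 1) = ∑ p ∈ antidiagonal m, coef a p.1 * coef b p.2

/-- For every log-concave radical weight `w` let `A` be the algebra of all power series without
constant term and with finite `ℓ¹(w)`-norm.  Then `A` exists, is a commutative radical Banach algebra
and is isometrically contained in a commutative RADICAL Banach algebra `B` such that every closed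
ideal `I` of `B` satisfies `I ∩ A = 0` or `A ⊆ I`. -/
theorem result (w : ℕ → ℝ) (hw : IsWeight w) :
    (∃ (A : Type) (_ : NonUnitalNormedCommRing A) (_ : NormedSpace ℂ A)
      (_ : IsScalarTower ℂ A A) (_ : SMulCommClass ℂ A A) (_ : CompleteSpace A)
      (coef : A →ₗ[ℂ] (ℕ → ℂ)), IsPowerSeriesAlgebra w A coef) ∧
    ∀ (A : Type u) [NonUnitalNormedCommRing A] [NormedSpace ℂ A]
      [IsScalarTower ℂ A A] [SMulCommClass ℂ A A] [CompleteSpace A]
      (coef : A →ₗ[ℂ] (ℕ → ℂ)), IsPowerSeriesAlgebra w A coef →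
      IsRadical A ∧
      ∃ (B : Type u) (_ : NonUnitalNormedCommRing B) (_ : NormedSpace ℂ B)
        (_ : IsScalarTower ℂ B B) (_ : SMulCommClass ℂ B B) (_ : CompleteSpace B)
        (φ : A →ₙₐ[ℂ] B), (∀ a, ‖φ a‖ = ‖a‖) ∧ IsRadical B ∧
        ∀ I : Submodule ℂ B, IsClosed (I : Set B) → (∀ b y : B, y ∈ I → b * y ∈ I) →
          (∀ a, φ a ∈ I → a = 0) ∨ (∀ a, φ a ∈ I) := by
  have hw' : IsWt w := ⟨hw.zero, hw.pos, hw.logConcave, hw.lim⟩
  refine ⟨?_, ?_⟩
  · obtain ⟨A, i1, i2, i3, i4, i5, coef, h⟩ := f_FEx w hw'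
    exact ⟨A, i1, i2, i3, i4, i5, coef, h.norm, h.surj, h.mul_zero, h.mul_succ⟩
  · intro A _ _ _ _ _ coef h
    exact f_ThmF w hw' A coef ⟨h.norm, h.surj, h.mul_zero, h.mul_succ⟩

end Pool.Agent.Results.MP_f50f2a_an.PowerSeries
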